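import Pool.Agent.W323.PT.Stm

/-!
# Project PT: symmetries of the class function (part CLsym)
-/

set_option autoImplicit false

namespace Pool.Agent.W412.PT

open Pool.Agent.W323.PT

theorem shift1 (f : ℤ → ℝ) (hf : ∀ r, f (r + 24) = f r) :
    ∑ r ∈ Finset.range 24, f ((r : ℤ) + 1) = ∑ r ∈ Finset.range 24, f (r : ℤ) := by
  have h1 := Finset.sum_range_succ (fun r : ℕ => f (r : ℤ)) 24
  have h2 := Finset.sum_range_succ' (fun r : ℕ => f (r : ℤ)) 24
  have h3 : f ((24 : ℕ) : ℤ) = f ((0 : ℕ) : ℤ) := by
    have := hf 0
    simpa using this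
  simp only [Nat.cast_add, Nat.cast_one] at h2
  rw [h1] at h2
  linarith

theorem shift (f : ℤ → ℝ) (hf : ∀ r, f (r + 24) = f r) (s : ℤ) :
    ∑ r ∈ Finset.range 24, f ((r : ℤ) + s) = ∑ r ∈ Finset.range 24, f (r : ℤ) := by
  have step : ∀ s : ℤ, ∑ r ∈ Finset.range 24, f ((r : ℤ) + (s + 1)) =
      ∑ r ∈ Finset.range 24, f ((r : ℤ) + s) := by
    intro s
    have h := shift1 (fun r => f (r + s)) (fun r => by
      have := hf (r + s)
      rw [← this]
      congr 1
      ring)
    rw [← h]
    refine Finset.sum_congr rfl fun r _ => ?_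
    congr 1
    ring
  induction s using Int.induction_on with
  | zero => simp
  | succ i ih => rw [step, ih]
  | pred i ih =>
    have h := step (-(i : ℤ) - 1)
    rw [sub_add_cancel] at h
    rw [← h, ih]

theorem o_rot (a b c : Pt) : o a b c = o c a b := by
  unfold o
  ring

theorem clsym : S_CLsym := by
  intro T hT s t _ _ _
  have hper : ∀ i, T (i + 24) = T i := hT.1
  refine ⟨?_, ?_⟩
  · unfold CL
    refine Finset.sum_congr rfl fun r _ => ?_
    rw [add_comm]
  · unfold CL
    rw [Finset.sum_add_distrib, Finset.sum_add_distrib]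
    congr 1
    · rw [← shift (fun r => Real.log (o (T r) (T (r + s)) (T (r + s + t)))) (fun r => ?_) (-s)]
      · refine Finset.sum_congr rfl fun r _ => ?_
        have e1 : T ((r : ℤ) + t + (24 - s - t)) = T ((r : ℤ) + -s) := by
          rw [← hper ((r : ℤ) + -s)]
          congr 1
          ring
        rw [e1, o_rot (T r) (T (r + t))]
        congr 2
        · congr 1
          ring
        · congr 1
          ring
      · have e1 : r + 24 + s = (r + s) + 24 := by ring
        have e2 : r + s + 24 + t = (r + s + t) + 24 := by ring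
        rw [e1, e2, hper, hper, hper]
    · rw [← shift (fun r => Real.log (o (T r) (T (r + t)) (T (r + t + s)))) (fun r => ?_) (-s - t)]
      · refine Finset.sum_congr rfl fun r _ => ?_
        have e1 : T ((r : ℤ) + (24 - s - t)) = T ((r : ℤ) + (-s - t)) := by
          rw [← hper ((r : ℤ) + (-s - t))]
          congr 1
          ring
        have e2 : T ((r : ℤ) + (24 - s - t) + t) = T ((r : ℤ) + (-s - t) + t) := by
          rw [← hper ((r : ℤ) + (-s - t) + t)]
          congr 1
          ring
        rw [e1, e2, o_rot (T r), o_rot (T ((r : ℤ) + (-s - t) + t))]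
        congr 2
        congr 1
        ring
      · have e1 : r + 24 + t = (r + t) + 24 := by ring
        have e2 : r + t + 24 + s = (r + t + s) + 24 := by ring
        rw [e1, e2, hper, hper, hper]

end Pool.Agent.W412.PT
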